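import Pool.Agent.Lib.H8.Erg3

/-!
Ergodic averages of lower semicomputable functions exist at all Martin-Loef random points of an
arbitrary stationary measure.
-/

namespace Pool.Agent.Results.MP_05754a_lc.Yes

open MeasureTheory ENNReal Filter Topology Finset Pool.Agent.Lib.H8 Rnd Erg Arith CList Qm Classical

/-- The sets where `f` exceeds the rational `(a - b) / (c + 1)` are uniformly effectively open. -/
def LscR (f : (ℕ → Bool) → ℝ) : Prop :=
  ∃ S : (ℕ × ℕ × ℕ) × List Bool → Prop, REPred S ∧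
    ∀ (a b c : ℕ) (ω : ℕ → Bool), ((a : ℝ) - b) / (c + 1) < f ω ↔ ∃ s, S ((a, b, c), pr ω s)

/-- Martin-Loef randomness for the measure `P`. -/
def MLR (P : Measure (ℕ → Bool)) (ω : ℕ → Bool) : Prop :=
  ∀ S : ℕ × List Bool → Prop, REPred S →
    (∀ n, {x | ∃ s, S (n + 1, pr x s)} ⊆ {x | ∃ s, S (n, pr x s)}) →
    (∀ n, P {x | ∃ s, S (n, pr x s)} ≤ 2⁻¹ ^ n) → ∃ n, ∀ s, ¬ S (n, pr ω s)

section
variable {α : Type} [Primcodable α]

lemma re_sig {p : α → Prop} (hp : REPred p) : Sig 1 α p := by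
  obtain ⟨c, hc⟩ := Nat.Partrec.Code.exists_code.1 hp
  refine (CeAlg.w_sig (Computable.const (Encodable.encode c)) Computable.encode).of_eq fun a => ?_
  simp [CeAlg.W, hc, Part.dom_iff_mem]

lemma sig_re {p : α → Prop} (hp : Sig 1 α p) : REPred p := by
  obtain ⟨B, hB, e⟩ := hp
  have hB' : ComputablePred B := (ComputablePred.not hB).of_eq fun p => by simp
  have h : Partrec fun a : α => Nat.rfind fun x => Part.some (decide (B (a, x))) :=
    Partrec.rfind hB'.decide.partrec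
  refine h.dom_re.of_eq fun a => ?_
  rw [e]
  exact Nat.rfind_dom.trans ⟨fun ⟨t, ht, _⟩ => ⟨t, by simpa using ht⟩,
    fun ⟨t, ht⟩ => ⟨t, by simpa using ht, by intros; trivial⟩⟩

lemma eo_union {P Q : α → Set (ℕ → Bool)} (h : EO P) (h' : EO Q) : EO fun a => P a ∪ Q a := by
  obtain ⟨E, a, c⟩ := h
  obtain ⟨E', a', c'⟩ := h'
  exact ⟨_, a.or a', fun x ω => by rw [Set.mem_union, c, c', exists_or]⟩

lemma eo_open {P : α → Set (ℕ → Bool)} (h : EO P) (a : α) : IsOpen (P a) := by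
  obtain ⟨E, -, e⟩ := h
  have : P a = ⋃ σ, ⋃ _ : E (a, σ), cyl σ := by
    ext ω
    simp only [e, Set.mem_iUnion, cyl, Set.mem_ofPred_eq]
    exact ⟨fun ⟨s, h⟩ => ⟨_, h, by simp⟩, fun ⟨σ, h, k⟩ => ⟨_, k ▸ h⟩⟩
  rw [this]
  refine isOpen_iUnion fun σ => isOpen_iUnion fun _ => ?_
  rw [← pr_getD σ, cyl_pr]
  exact isOpen_set_pi (Finset.finite_toSet _) fun _ _ => isOpen_discrete _

end

lemma unif {P : ℕ → ℕ → Prop} (h : ∀ j, ∃ u, ∀ s ≥ u, P j s) (i : ℕ) :
    ∃ u, ∀ j < i, ∀ s ≥ u, P j s := by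
  choose f hf using h
  exact ⟨(range i).sup f, fun j hj s hs => hf j s ((le_sup (f := f) (mem_range.2 hj)).trans hs)⟩

lemma lg (c w : ℕ) : ∃ u, ∀ m ≥ u, c * (Nat.log 2 m + 2) ≤ m ∧ w ≤ Nat.log 2 m := by
  refine ⟨2 ^ (w + 2 * c + 2), fun m hm => ?_⟩
  have h1 : w + 2 * c + 2 ≤ Nat.log 2 m := Nat.le_log_of_pow_le (by norm_num) hm
  have h2 := Nat.pow_log_le_self 2 (show m ≠ 0 by have := Nat.two_pow_pos (w + 2 * c + 2); omega)
  refine ⟨le_trans ?_ h2, by omega⟩
  obtain ⟨r, hr⟩ : ∃ r, Nat.log 2 m = c + (r + 1) := ⟨Nat.log 2 m - c - 1, by omega⟩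
  have h3 : c < 2 ^ c := c.lt_two_pow_self
  have h4 : r < 2 ^ r := r.lt_two_pow_self
  rw [hr, pow_add, pow_succ]
  exact Nat.mul_le_mul h3.le (by omega)

lemma caught {F : ℕ → ℕ → ℕ} {h : ℕ → ℕ} {a : ℕ} (hF : ∀ i, Monotone fun s => F s i)
    (h1 : ∀ s i, F s i ≤ h i) (h2 : ∀ i, ∃ u, ∀ s ≥ u, F s i = h i)
    (hH : ∀ w, ∃ n ≥ w, (a + 3) * n < ∑ i ∈ range n, h i)
    (hL : ∀ w, ∃ n ≥ w, ∑ i ∈ range n, h i < a * n) (j : ℕ) :
    (∃ q σ m k, Yc F a (a + 3) j q σ m k) ∨ ∃ k, Zc F a (a + 1) j k := by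
  have e1 : ∀ s n, S F s 0 n ≤ ∑ i ∈ range n, h i := fun s n => sum_le_sum fun i _ => by
    simpa using h1 s i
  have e2 : ∀ k, ∃ u, ∀ s ≥ u, ∀ n ≤ k, S F s 0 n = ∑ i ∈ range n, h i := fun k => by
    obtain ⟨u, hu⟩ := unif h2 k
    exact ⟨u, fun s hs n hn => sum_congr rfl fun i hi => by
      simpa using hu i (by have := mem_range.1 hi; omega) s hs⟩
  by_cases hq : ∀ w, ∃ m ≥ w, (a + 2) * m < S F (Nat.log 2 m + 2) 0 m
  · refine Or.inr (N_inf (fun w => ?_) (fun w => (hL w).imp fun n k => ⟨k.1, lt_of_le_of_lt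
      (sum_le_sum fun i _ => by simpa using h1 _ i) k.2⟩) j 1)
    obtain ⟨u, hu⟩ := lg (a + 1) 0
    obtain ⟨m, m1, m2⟩ := hq (u + w)
    have := (hu m (by omega)).1
    refine ⟨m + (Nat.log 2 m + 2), by omega, ?_⟩
    have k : S F (Nat.log 2 m + 2) 0 m ≤ Erg.G F 0 (m + (Nat.log 2 m + 2)) := by
      rw [Erg.G, sum_range_add]
      exact le_add_right (sum_le_sum fun i hi => hF _ (by have := mem_range.1 hi; omega))
    nlinarith
  · push Not at hq
    obtain ⟨w, hw⟩ := hq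
    obtain ⟨k, hk⟩ := N_inf hH hL j 1
    obtain ⟨u, hu⟩ := e2 (k + 1)
    obtain ⟨v, hv⟩ := lg 0 (u + 1)
    obtain ⟨n, n1, n2⟩ := hH (v + w + k + 1)
    obtain ⟨l, l1, l2⟩ := hL n
    obtain ⟨m, m1, m2, m3⟩ : ∃ m ≥ n, (a + 3) * m < ∑ i ∈ range m, h i ∧
        ¬ (a + 3) * (m + 1) < ∑ i ∈ range (m + 1), h i := by
      by_contra! c
      have : ∀ m ≥ n, (a + 3) * m < ∑ i ∈ range m, h i := fun m hm => by
        induction m, hm using Nat.le_induction with
        | base => exact n2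
        | succ m hm ih => exact c m hm ih
      have := this l l1
      nlinarith
    obtain ⟨t, ht⟩ := e2 m
    have h3 := (hv m (by omega)).2
    have h4 := Nat.pow_log_le_self 2 (show m ≠ 0 by omega)
    have h5 := Nat.lt_pow_succ_log_self (show 1 < 2 by norm_num) m
    have h6 := hw m (by omega)
    have h7 := ht (t + (Nat.log 2 m + 2)) (by omega) m le_rfl
    rw [sum_range_succ] at m3
    rw [pow_succ] at h5
    refine Or.inl ⟨Nat.log 2 m + 2, t + (Nat.log 2 m + 2), m, k, ⟨by omega, by omega,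
      by rw [pow_add]; omega, by rw [pow_add]; omega, by rw [pow_add]; omega⟩,
      by nlinarith, by nlinarith, hk.trans (N_mono le_rfl (fun n hn z => ?_) fun n hn z => ?_).1⟩
    · rwa [hu _ (by omega) _ (by omega)]
    · exact (e1 _ _).trans_lt z

theorem result (P : Measure (ℕ → Bool)) [IsProbabilityMeasure P] (hP : MeasurePreserving sh P P)
    (f : (ℕ → Bool) → ℝ) (hf : LscR f) (ω : ℕ → Bool) (hω : MLR P ω) :
    (∃ L : ℝ, Tendsto (fun n : ℕ => (∑ k ∈ range n, f (sh^[k] ω)) / n) atTop (𝓝 L)) ∨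
      Tendsto (fun n : ℕ => (∑ k ∈ range n, f (sh^[k] ω)) / n) atTop atTop := by
  obtain ⟨S, hS, e⟩ := hf
  have eo : EO fun x : ℕ × ℕ × ℕ => {ω | ((x.1 : ℝ) - x.2.1) / (x.2.2 + 1) < f ω} :=
    ⟨S, re_sig hS, fun x ω => e _ _ _ ω⟩
  obtain ⟨c, hc⟩ : ∃ c : ℕ, ∀ ω, -(c : ℝ) < f ω := by
    obtain ⟨t, ht⟩ := isCompact_univ.elim_finite_subcover (fun c : ℕ => {ω | -(c : ℝ) < f ω})
      (fun c => by simpa using eo_open eo (0, c, 0)) fun ω _ => by
        obtain ⟨c, hc⟩ := exists_nat_gt (-f ω)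
        exact Set.mem_iUnion.2 ⟨c, neg_lt.1 hc⟩
    refine ⟨t.sup id, fun ω => ?_⟩
    obtain ⟨c, c1, c2⟩ := Set.mem_iUnion₂.1 (ht (Set.mem_univ ω))
    exact lt_of_le_of_lt (by simpa using le_sup (f := id) c1) c2
  obtain ⟨z, hz⟩ : ∃ z : EReal,
      Tendsto (fun n : ℕ => (((∑ k ∈ range n, f (sh^[k] ω)) / n : ℝ) : EReal)) atTop (𝓝 z) := by
    refine tendsto_of_no_upcrossings (s := Set.univ) dense_univ fun x' _ y' _ xy ⟨hx, hy⟩ => ?_
    obtain ⟨x, x1, x2⟩ := EReal.lt_iff_exists_real_btwn.1 xy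
    obtain ⟨y, y1, y2⟩ := EReal.lt_iff_exists_real_btwn.1 x2
    have xy : x < y := by exact_mod_cast y1
    obtain ⟨d, hd⟩ := exists_nat_gt (5 / (y - x))
    rw [div_lt_iff₀ (by linarith)] at hd
    obtain ⟨E, a, b, g⟩ := (eo.comp (f := fun k : ℕ => (k, c * (d + 1), d))
      (Computable.id.pair (Computable.const _))).nf
    have g : ∀ (k : ℕ) ω, k < (d + 1) * (f ω + c) ↔ ∃ s, E (k, pr ω s) := fun k ω => by
      rw [← g, Set.mem_ofPred_eq, div_lt_iff₀ (by positivity)]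
      push_cast
      constructor <;> intro h <;> linarith
    let u : List Bool → ℕ := fun σ => Nat.findGreatest (fun n => E (n, σ)) σ.length
    have hu : Computable u := cfg (p := fun σ n => E (n, σ)) Computable.list_length
      (cp a (Computable.snd.pair Computable.fst))
    have mo : ∀ ω, Monotone fun s => u (pr ω s) := fun ω s t l =>
      Nat.findGreatest_mono (fun n => b n ω l) (by simpa using l)
    let h : (ℕ → Bool) → ℕ := fun ω => ⌈(d + 1) * (f ω + c)⌉₊ - 1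
    have p : ∀ ω, 0 < (d + 1) * (f ω + c) := fun ω =>
      mul_pos (by positivity) (by have := hc ω; linarith)
    have h0 : ∀ (k : ℕ) ω, k ≤ h ω ↔ k < (d + 1) * (f ω + c) := fun k ω => by
      have := Nat.ceil_pos.2 (p ω)
      rw [← Nat.lt_ceil]
      simp only [h]
      omega
    have h1 : ∀ ω s, u (pr ω s) ≤ h ω := fun ω s => by
      rcases eq_or_ne (u (pr ω s)) 0 with z | z
      · omega
      · exact (h0 _ _).2 ((g _ _).2 ⟨s, Nat.findGreatest_of_ne_zero rfl z⟩)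
    have h2 : ∀ ω, ∃ t, ∀ s ≥ t, u (pr ω s) = h ω := fun ω => by
      obtain ⟨t, ht⟩ := (g _ _).1 ((h0 _ ω).1 le_rfl)
      exact ⟨t + h ω, fun s hs => (h1 ω s).antisymm
        (Nat.le_findGreatest (by simp; omega) (b _ ω (by omega) ht))⟩
    have s1 : ∀ n : ℕ, ((∑ i ∈ range n, h (sh^[i] ω) : ℕ) : ℝ) ≤
        (d + 1) * (∑ k ∈ range n, f (sh^[k] ω) + n * c) := fun n => by
      have := sum_le_sum (s := range n) fun i _ => ((h0 _ (sh^[i] ω)).1 le_rfl).le
      rw [← mul_sum, sum_add_distrib] at this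
      simpa using this
    have s2 : ∀ n : ℕ, (d + 1) * (∑ k ∈ range n, f (sh^[k] ω) + n * c) ≤
        ((∑ i ∈ range n, h (sh^[i] ω) : ℕ) : ℝ) + n := fun n => by
      have := sum_le_sum (s := range n) fun i _ =>
        not_lt.1 (mt (h0 (h (sh^[i] ω) + 1) (sh^[i] ω)).2 (by omega))
      rw [← mul_sum, sum_add_distrib] at this
      simpa [sum_add_distrib] using this
    have lo : ∀ w, ∃ n ≥ w, 0 < n ∧ ∑ k ∈ range n, f (sh^[k] ω) < x * n := fun w => by
      obtain ⟨n, n1, n2⟩ := frequently_atTop.1 hx (w + 1)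
      have : (0 : ℝ) < n := by exact_mod_cast (by omega : 0 < n)
      exact ⟨n, by omega, by omega, (div_lt_iff₀ this).1 (by exact_mod_cast n2.trans x1)⟩
    have xc : 0 ≤ x + c := by
      obtain ⟨n, -, n1, n2⟩ := lo 0
      have : (0 : ℝ) < n := by exact_mod_cast n1
      have k := sum_le_sum (s := range n) fun i _ => (hc (sh^[i] ω)).le
      simp only [sum_const, card_range, nsmul_eq_mul] at k
      by_contra l
      nlinarith
    obtain ⟨A, hA⟩ : ∃ A, A = ⌈(d + 1) * (x + c)⌉₊ := ⟨_, rfl⟩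
    have A1 : (d + 1) * (x + c) ≤ A := hA ▸ Nat.le_ceil _
    have A2 : A < (d + 1) * (x + c) + 1 := hA ▸ Nat.ceil_lt_add_one (by positivity)
    have ca := caught (F := arr u ω) (h := fun i => h (sh^[i] ω)) (a := A) (fun i => mo _)
      (fun s i => by rw [sh_iter]; exact h1 _ s) (fun i => by rw [sh_iter]; exact h2 _)
      (fun w => by
        obtain ⟨n, n1, n2⟩ := frequently_atTop.1 hy (w + 1)
        have k : (0 : ℝ) < n := by exact_mod_cast (by omega : 0 < n)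
        have l : y * n < ∑ k ∈ range n, f (sh^[k] ω) :=
          (lt_div_iff₀ k).1 (by exact_mod_cast y2.trans n2)
        have := s2 n
        refine ⟨n, by omega, (Nat.cast_lt (α := ℝ)).1 ?_⟩
        rw [Nat.cast_mul, Nat.cast_add]
        have m1 := mul_lt_mul_of_pos_left l (show (0 : ℝ) < d + 1 by positivity)
        have m2 : (A + 4 : ℝ) * n ≤ ((d + 1) * (y + c)) * n :=
          mul_le_mul_of_nonneg_right (by nlinarith) k.le
        push_cast at this ⊢
        linarith)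
      fun w => by
        obtain ⟨n, n1, n2, l⟩ := lo w
        have := s1 n
        refine ⟨n, n1, (Nat.cast_lt (α := ℝ)).1 ?_⟩
        have m1 := mul_lt_mul_of_pos_left l (show (0 : ℝ) < d + 1 by positivity)
        have m2 := mul_le_mul_of_nonneg_right A1 (Nat.cast_nonneg (α := ℝ) n)
        rw [Nat.cast_mul]
        linarith
    obtain ⟨M, hM⟩ : ∃ M, M = 2 * ((A + 3) * (24 + 64 * (A + 3))) + 2 * (A + 1) := ⟨_, rfl⟩
    have cj : Computable fun n : ℕ => 2 ^ n * M :=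
      Primrec.nat_mul.to_comp.comp pow_c (Computable.const M)
    have k1 := Computable.fst (α := ℕ) (β := ℕ × ℕ)
    have t1 : EO fun n : ℕ => ⋃ x : ℕ × ℕ, ⋃ y : ℕ × ℕ,
        {ω | Yc (arr u ω) A (A + 3) (2 ^ n * M) x.1 x.2 y.1 y.2} :=
      EO.iUnion (EO.iUnion ((Y_eo hu A (A + 3)).comp
        ((((cj.comp k1).pair Computable.snd).comp Computable.fst).pair Computable.snd)))
    have t2 : EO fun n : ℕ => ⋃ k, {ω | Zc (arr u ω) A (A + 1) (2 ^ n * M) k} :=
      EO.iUnion ((Z_eo hu A (A + 1)).comp ((cj.comp Computable.fst).pair Computable.snd))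
    obtain ⟨T, T1, T2⟩ := eo_union t1 t2
    obtain ⟨n, hn⟩ := hω T (sig_re T1) (fun n z => by
      have : 2 ^ n * M ≤ 2 ^ (n + 1) * M := by gcongr <;> omega
      simp only [Set.mem_ofPred_eq, ← T2, Set.mem_union, Set.mem_iUnion]
      exact Or.imp (fun ⟨x, y, k⟩ => ⟨x, y, k.1, k.2.1, k.2.2.1, this.trans k.2.2.2⟩)
        fun ⟨x, k⟩ => ⟨x, this.trans k⟩) fun n => by
      simp only [← T2, Set.ofPred_mem_eq]
      have := (mul_le_mul_right (measure_union_le _ _) _).trans ((mul_add _ _ _).le.trans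
        (add_le_add (Y_le hP hu mo (by omega : A < A + 3) (2 ^ n * M))
          (Z_le hP hu mo (by omega : A < A + 1) (2 ^ n * M))))
      rw [← Nat.cast_add, ← hM, Nat.cast_mul, mul_right_comm] at this
      have M0 : (M : ℝ≥0∞) ≠ 0 := by exact_mod_cast (by omega : M ≠ 0)
      have := (ENNReal.mul_le_mul_iff_left M0 (by simp)).1 (this.trans_eq (one_mul _).symm)
      rw [← ENNReal.inv_pow, ENNReal.le_inv_iff_mul_le, mul_comm]
      exact_mod_cast this
    obtain ⟨s, hs⟩ := (T2 n ω).1 (by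
      simp only [Set.mem_union, Set.mem_iUnion]
      exact (ca (2 ^ n * M)).imp_left fun ⟨q, σ, m, k, z⟩ => ⟨(q, σ), (m, k), z⟩)
    exact hn s hs
  induction z with
  | bot =>
    obtain ⟨n, n1, n2⟩ := ((hz.eventually (gt_mem_nhds (EReal.bot_lt_coe (-c)))).and
      (eventually_gt_atTop 0)).exists
    have : (0 : ℝ) < n := by exact_mod_cast n2
    have k := sum_le_sum (s := range n) fun i _ => (hc (sh^[i] ω)).le
    simp only [sum_const, card_range, nsmul_eq_mul] at k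
    have := (div_lt_iff₀ this).1 (EReal.coe_lt_coe_iff.1 n1)
    linarith
  | coe z => exact Or.inl ⟨z, EReal.tendsto_coe.1 hz⟩
  | top => exact Or.inr (EReal.tendsto_coe_nhds_top_iff.1 hz)

end Pool.Agent.Results.MP_05754a_lc.Yes
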